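import Pool.Agent.GTO.StmtsC

/-! Squad GTO: module IRD (the cubic of a long run on a line without rich point contains no
line). Uses LNF. -/

namespace Pool.Agent.GTO.H16

open Finset
open scoped Classical

/-- three vectors orthogonal to a nonzero vector have determinant zero -/
theorem dt_eq_zero_of_orth (w x y z : V) (hw : w ≠ 0) (hx : ip w x = 0) (hy : ip w y = 0)
    (hz : ip w z = 0) : dt x y z = 0 := by
  have h : ∀ i, dt x y z * w i = 0 := by
    intro i
    have e0 : dt x y z * w 0 = 0 := by
      simp only [dt, ip] at *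
      linear_combination (y 1 * z 2 - y 2 * z 1) * hx + (z 1 * x 2 - z 2 * x 1) * hy +
        (x 1 * y 2 - x 2 * y 1) * hz
    have e1 : dt x y z * w 1 = 0 := by
      simp only [dt, ip] at *
      linear_combination (y 2 * z 0 - y 0 * z 2) * hx + (z 2 * x 0 - z 0 * x 2) * hy +
        (x 2 * y 0 - x 0 * y 2) * hz
    have e2 : dt x y z * w 2 = 0 := by
      simp only [dt, ip] at *
      linear_combination (y 0 * z 1 - y 1 * z 0) * hx + (z 0 * x 1 - z 1 * x 0) * hy +
        (x 0 * y 1 - x 1 * y 0) * hz
    fin_cases i
    · exact e0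
    · exact e1
    · exact e2
  by_contra hd
  apply hw
  funext i
  rcases mul_eq_zero.1 (h i) with h1 | h1
  · exact absurd h1 hd
  · simpa using h1

theorem ip_cr (u v w : V) : ip (cr u v) w = dt u v w := by
  simp only [ip, cr, dt, Matrix.cons_val_zero, Matrix.cons_val_one, Matrix.cons_val]
  ring

theorem cr_comb (u v : V) (s t s' t' : ℝ) :
    cr (s • u + t • v) (s' • u + t' • v) = (s * t' - t * s') • cr u v := by
  funext i
  fin_cases i
  · simp [cr]
    ring
  · simp [cr]
    ring
  · simp [cr]
    ring

theorem ip_cr_comb (u v : V) (s t : ℝ) : ip (cr u v) (s • u + t • v) = 0 := by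
  simp [ip, cr]
  ring

theorem ird (hLnf : LnfStmt) : IrdStmt := by
  obtain ⟨hL4, hL3, -, hL0, -, -, -⟩ := hLnf
  intro ι _ a hPI N L O Gm G1 G2 A B c hRun hN hRich hL2 hLn h3L hLN hc hO hGm hG1 hG2 hAB
  by_contra hNo
  unfold NoLine at hNo
  push Not at hNo
  obtain ⟨u, v, huv, hv⟩ := hNo
  set w : V := cr u v with hw
  -- the factorisation
  obtain ⟨e, he⟩ : ∃ e : Fin 6 → ℝ, ∀ x, cub c x = ip w x * quad e x := by
    have key : ∀ (s t s' t' : ℝ), s * t' - t * s' ≠ 0 →
        cr (s • u + t • v) (s' • u + t' • v) ≠ 0 := by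
      intro s t s' t' h
      rw [cr_comb]
      exact smul_ne_zero h huv
    let S : Fin 4 → ℝ := ![1, 0, 1, 1]
    let T : Fin 4 → ℝ := ![0, 1, 1, -1]
    refine hL4 c w (fun i => S i • u + T i • v) huv ?_ ?_
    · intro i
      exact ⟨ip_cr_comb u v _ _, hv _ _⟩
    · intro i j hij
      apply key
      fin_cases i <;> fin_cases j <;> first
        | exact absurd rfl hij
        | norm_num [S, T]
  -- points on a line
  have hS : ∀ w' : V, w' ≠ 0 → (univ.filter fun i => ip w' (a i) = 0).card ≤ L := by
    intro w' hw'
    by_contra hcon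
    push Not at hcon
    have h1 : 1 < (univ.filter fun i => ip w' (a i) = 0).card := by omega
    obtain ⟨i, hi, j, hj, hij⟩ := Finset.one_lt_card.1 h1
    rw [mem_filter] at hi hj
    have hsub : (univ.filter fun i => ip w' (a i) = 0) ⊆ ln a i j := by
      intro k hk
      rw [mem_filter] at hk
      unfold ln
      rw [mem_filter]
      exact ⟨mem_univ _, dt_eq_zero_of_orth w' _ _ _ hw' hi.2 hj.2 hk.2⟩
    have h2 := card_le_card hsub
    have h3 := hLn i j hij
    omega
  obtain ⟨hT0, hT1, hTm, hT2, hdist, hnd, -, -⟩ := hRun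
  -- e is not zero
  have hquad : ¬ ∀ x, quad e x = 0 := by
    intro hq
    apply hc
    apply hL0
    intro x
    rw [he, hq, mul_zero]
  -- quad e contains no three collinear points
  have hNQ : ∀ i j k, i ≠ j → i ≠ k → j ≠ k → dt (a i) (a j) (a k) = 0 →
      quad e (a i) = 0 → quad e (a j) = 0 → quad e (a k) = 0 → False := by
    intro i j k hij hik hjk hd hi hj hk
    have hw' : cr (a i) (a j) ≠ 0 := hPI i j hij
    have ipi : ip (cr (a i) (a j)) (a i) = 0 := by
      rw [ip_cr]
      simp only [dt]
      ring
    have ipj : ip (cr (a i) (a j)) (a j) = 0 := by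
      rw [ip_cr]
      simp only [dt]
      ring
    have ipk : ip (cr (a i) (a j)) (a k) = 0 := by
      rw [ip_cr]
      exact hd
    obtain ⟨m, hm⟩ := hL3 e (cr (a i) (a j)) ![a i, a j, a k] hw' (by
      intro l
      fin_cases l
      · exact ⟨ipi, hi⟩
      · exact ⟨ipj, hj⟩
      · exact ⟨ipk, hk⟩) (by
      intro l l' hll
      fin_cases l <;> fin_cases l' <;> first
        | exact absurd rfl hll
        | exact hPI _ _ hij
        | exact hPI _ _ hik
        | exact hPI _ _ hjk
        | exact hPI _ _ hij.symm
        | exact hPI _ _ hik.symm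
        | exact hPI _ _ hjk.symm)
    have hm0 : m ≠ 0 := by
      intro h0
      apply hquad
      intro x
      rw [hm, h0]
      simp [ip]
    have hsub : ((range (N + 2)).image A ∪ (range (N + 2)).image B) ⊆
        ((univ.filter fun l => ip w (a l) = 0) ∪
          (univ.filter fun l => ip (cr (a i) (a j)) (a l) = 0)) ∪
          (univ.filter fun l => ip m (a l) = 0) := by
      intro l hl
      have hcl : cub c (a l) = 0 := by
        rcases mem_union.1 hl with h | h
        · obtain ⟨r, hr, rfl⟩ := mem_image.1 h
          rw [mem_range] at hr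
          exact (hAB r (by omega)).1
        · obtain ⟨r, hr, rfl⟩ := mem_image.1 h
          rw [mem_range] at hr
          exact (hAB r (by omega)).2
      rw [he, hm] at hcl
      rw [mem_union, mem_union, mem_filter, mem_filter, mem_filter]
      rcases mul_eq_zero.1 hcl with h | h
      · exact Or.inl (Or.inl ⟨mem_univ _, h⟩)
      · rcases mul_eq_zero.1 h with h | h
        · exact Or.inl (Or.inr ⟨mem_univ _, h⟩)
        · exact Or.inr ⟨mem_univ _, h⟩
    have hcA : ((range (N + 2)).image A).card = N + 2 := by
      rw [card_image_of_injOn, card_range]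
      intro r hr s hs hrs
      by_contra hne
      have hr' : r ≤ N + 1 := by
        have := mem_range.1 (mem_coe.1 hr)
        omega
      have hs' : s ≤ N + 1 := by
        have := mem_range.1 (mem_coe.1 hs)
        omega
      exact ((hdist r hr' s hs').2 hne).1 hrs
    have hcB : ((range (N + 2)).image B).card = N + 2 := by
      rw [card_image_of_injOn, card_range]
      intro r hr s hs hrs
      by_contra hne
      have hr' : r ≤ N + 1 := by
        have := mem_range.1 (mem_coe.1 hr)
        omega
      have hs' : s ≤ N + 1 := by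
        have := mem_range.1 (mem_coe.1 hs)
        omega
      exact ((hdist r hr' s hs').2 hne).2 hrs
    have hdis : Disjoint ((range (N + 2)).image A) ((range (N + 2)).image B) := by
      rw [Finset.disjoint_left]
      intro l h1 h2
      obtain ⟨r, hr, rfl⟩ := mem_image.1 h1
      obtain ⟨s, hs, hs2⟩ := mem_image.1 h2
      rw [mem_range] at hr hs
      exact (hdist r (by omega) s (by omega)).1 hs2.symm
    have h1 := card_le_card hsub
    rw [card_union_of_disjoint hdis, hcA, hcB] at h1
    have h2 := card_union_le ((univ.filter fun l => ip w (a l) = 0) ∪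
          (univ.filter fun l => ip (cr (a i) (a j)) (a l) = 0))
          (univ.filter fun l => ip m (a l) = 0)
    have h3 := card_union_le (univ.filter fun l => ip w (a l) = 0)
          (univ.filter fun l => ip (cr (a i) (a j)) (a l) = 0)
    have h4 := hS w huv
    have h5 := hS _ hw'
    have h6 := hS m hm0
    omega
  -- the special points are on the line
  have hgen : ∀ (M : ℕ) (X : ι) (P Q : ℕ → ι), L < M → cub c (a X) = 0 →
      (∀ i < M, Tri a X (P i) (Q i)) → (∀ i < M, cub c (a (P i)) = 0 ∧ cub c (a (Q i)) = 0) →
      (∀ i < M, ∀ j < M, P i ≠ Q j ∧ (i ≠ j → P i ≠ P j ∧ Q i ≠ Q j)) → ip w (a X) = 0 := by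
    intro M X P Q hM hX hTri hPQ hne
    by_contra hXw
    have hqX : quad e (a X) = 0 := by
      have h := hX
      rw [he] at h
      exact (mul_eq_zero.1 h).resolve_left hXw
    have hor : ∀ i < M, ip w (a (P i)) = 0 ∨ ip w (a (Q i)) = 0 := by
      intro i hi
      by_contra hcon
      push Not at hcon
      obtain ⟨hP, hQ⟩ := hcon
      obtain ⟨hcP, hcQ⟩ := hPQ i hi
      rw [he] at hcP hcQ
      have hqP := (mul_eq_zero.1 hcP).resolve_left hP
      have hqQ := (mul_eq_zero.1 hcQ).resolve_left hQ
      obtain ⟨t1, t2, t3, t4⟩ := hTri i hi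
      have hmem : Q i ∈ ln a X (P i) := by
        rw [t4]
        simp
      unfold ln at hmem
      rw [mem_filter] at hmem
      exact hNQ X (P i) (Q i) t1 t3.symm t2 hmem.2 hqX hqP hqQ
    have hcard : (range M).card ≤ (univ.filter fun i => ip w (a i) = 0).card := by
      apply card_le_card_of_injOn (fun i => if ip w (a (P i)) = 0 then P i else Q i)
      · intro i hi
        have hi' : i < M := mem_range.1 (mem_coe.1 hi)
        rw [mem_coe, mem_filter]
        refine ⟨mem_univ _, ?_⟩
        by_cases h : ip w (a (P i)) = 0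
        · simp only [if_pos h]
          exact h
        · simp only [if_neg h]
          exact (hor i hi').resolve_left h
      · intro i hi j hj hij
        have hi' : i < M := mem_range.1 (mem_coe.1 hi)
        have hj' : j < M := mem_range.1 (mem_coe.1 hj)
        by_contra hne'
        obtain ⟨n1, n2⟩ := hne i hi' j hj'
        obtain ⟨n3, -⟩ := hne j hj' i hi'
        obtain ⟨n4, n5⟩ := n2 hne'
        simp only at hij
        by_cases h : ip w (a (P i)) = 0
        · by_cases h' : ip w (a (P j)) = 0
          · rw [if_pos h, if_pos h'] at hij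
            exact n4 hij
          · rw [if_pos h, if_neg h'] at hij
            exact n1 hij
        · by_cases h' : ip w (a (P j)) = 0
          · rw [if_neg h, if_pos h'] at hij
            exact n3 hij.symm
          · rw [if_neg h, if_neg h'] at hij
            exact n5 hij
    rw [card_range] at hcard
    have := hS w huv
    omega
  have pO : ip w (a O) = 0 := by
    refine hgen (N + 2) O A B (by omega) hO (fun i hi => hT0 i (by omega))
      (fun i hi => hAB i (by omega)) ?_
    intro i hi j hj
    exact hdist i (by omega) j (by omega)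
  have pG1 : ip w (a G1) = 0 := by
    refine hgen (N + 1) G1 A (fun i => B (i + 1)) (by omega) hG1 (fun i hi => hT1 i (by omega))
      (fun i hi => ⟨(hAB i (by omega)).1, (hAB (i + 1) (by omega)).2⟩) ?_
    intro i hi j hj
    refine ⟨(hdist i (by omega) (j + 1) (by omega)).1, fun hij => ?_⟩
    exact ⟨((hdist i (by omega) j (by omega)).2 hij).1,
      ((hdist (i + 1) (by omega) (j + 1) (by omega)).2 (by omega)).2⟩
  have pGm : ip w (a Gm) = 0 := by
    refine hgen (N + 1) Gm (fun i => A (i + 1)) B (by omega) hGm (fun i hi => hTm i (by omega))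
      (fun i hi => ⟨(hAB (i + 1) (by omega)).1, (hAB i (by omega)).2⟩) ?_
    intro i hi j hj
    refine ⟨(hdist (i + 1) (by omega) j (by omega)).1, fun hij => ?_⟩
    exact ⟨((hdist (i + 1) (by omega) (j + 1) (by omega)).2 (by omega)).1,
      ((hdist i (by omega) j (by omega)).2 hij).2⟩
  have pG2 : ip w (a G2) = 0 := by
    refine hgen N G2 A (fun i => B (i + 2)) (by omega) hG2 (fun i hi => hT2 i (by omega))
      (fun i hi => ⟨(hAB i (by omega)).1, (hAB (i + 2) (by omega)).2⟩) ?_
    intro i hi j hj
    refine ⟨(hdist i (by omega) (j + 2) (by omega)).1, fun hij => ?_⟩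
    exact ⟨((hdist i (by omega) j (by omega)).2 hij).1,
      ((hdist (i + 2) (by omega) (j + 2) (by omega)).2 (by omega)).2⟩
  -- four points on one line
  apply hRich
  unfold Rich
  rw [mem_filter]
  simp only [List.nodup_cons, List.mem_cons, not_or, List.not_mem_nil, not_false_eq_true,
    List.nodup_nil, and_true] at hnd
  obtain ⟨⟨d1, d2, d3⟩, ⟨d4, d5⟩, d6⟩ := hnd
  refine ⟨mem_univ _, G1, fun h => d2 h.symm, ?_⟩
  have hsub : ({O, Gm, G1, G2} : Finset ι) ⊆ ln a O G1 := by
    intro k hk
    have hk' : ip w (a k) = 0 := by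
      simp only [mem_insert, mem_singleton] at hk
      rcases hk with rfl | rfl | rfl | rfl
      · exact pO
      · exact pGm
      · exact pG1
      · exact pG2
    unfold ln
    rw [mem_filter]
    exact ⟨mem_univ _, dt_eq_zero_of_orth w _ _ _ huv pO pG1 hk'⟩
  have h4 : ({O, Gm, G1, G2} : Finset ι).card = 4 := by
    rw [card_insert_of_notMem, card_insert_of_notMem, card_insert_of_notMem, card_singleton]
    · simp only [mem_singleton]
      exact d6
    · simp only [mem_insert, mem_singleton, not_or]
      exact ⟨d4, d5⟩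
    · simp only [mem_insert, mem_singleton, not_or]
      exact ⟨d1, d2, d3⟩
  have := card_le_card hsub
  omega

end Pool.Agent.GTO.H16
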